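import Pool.Agent.T9h45.CP.Spec

set_option autoImplicit false

namespace Pool.Agent.T9h56.CP

open Finset Classical Pool.T9h45.CP

section basic

variable {V : Type} [Fintype V]

lemma cn_mono {P Q : V → Prop} (h : ∀ w, P w → Q w) : cn P ≤ cn Q := by
  unfold cn
  apply card_le_card
  intro w hw
  rw [mem_filter] at hw ⊢
  exact ⟨hw.1, h w hw.2⟩

lemma cn_congr {P Q : V → Prop} (h : ∀ w, P w ↔ Q w) : cn P = cn Q :=
  le_antisymm (cn_mono fun w => (h w).1) (cn_mono fun w => (h w).2)

lemma cn_eq (P : V → Prop) [inst : DecidablePred P] : cn P = (univ.filter P).card := by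
  unfold cn
  congr

lemma cn_split (P Q : V → Prop) : cn P = cn (fun w => P w ∧ Q w) + cn (fun w => P w ∧ ¬ Q w) := by
  rw [cn_eq, cn_eq, cn_eq, card_filter, card_filter, card_filter, ← sum_add_distrib]
  refine sum_congr rfl fun w _ => ?_
  by_cases h1 : P w <;> by_cases h2 : Q w <;> simp [h1, h2]

lemma cn_equiv (φ : V ≃ V) (P : V → Prop) : cn (fun w => P (φ w)) = cn P := by
  unfold cn
  apply card_bij (fun w _ => φ w)
  · intro w hw
    rw [mem_filter] at hw ⊢
    exact ⟨mem_univ _, hw.2⟩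
  · intro a _ b _ hab
    exact φ.injective hab
  · intro b hb
    rw [mem_filter] at hb
    refine ⟨φ.symm b, ?_, by simp⟩
    rw [mem_filter]
    refine ⟨mem_univ _, ?_⟩
    rw [Equiv.apply_symm_apply]
    exact hb.2

lemma cn_pos_of_exists {P : V → Prop} (h : 0 < cn P) : ∃ w, P w := by
  unfold cn at h
  obtain ⟨w, hw⟩ := card_pos.1 h
  exact ⟨w, (mem_filter.1 hw).2⟩

lemma one_le_cn {P : V → Prop} (v : V) (hv : P v) : 1 ≤ cn P := by
  unfold cn
  exact card_pos.2 ⟨v, mem_filter.2 ⟨mem_univ _, hv⟩⟩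

/-- common neighbours -/
noncomputable def co (G : SimpleGraph V) (u v : V) : ℕ := cn fun w => G.Adj u w ∧ G.Adj v w

lemma co_comm (G : SimpleGraph V) (u v : V) : co G u v = co G v u :=
  cn_congr fun _ => and_comm

/-- two large subsets of a set have a large intersection -/
lemma inter_large (P Q R : V → Prop) :
    cn (fun w => P w ∧ Q w) + cn (fun w => P w ∧ R w) ≤ cn P + cn (fun w => Q w ∧ R w) := by
  have h1 := cn_split P Q
  have h2 := cn_split (fun w => P w ∧ R w) Q
  have h3 : cn (fun w => (P w ∧ R w) ∧ Q w) ≤ cn (fun w => Q w ∧ R w) :=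
    cn_mono fun w hw => ⟨hw.2, hw.1.2⟩
  have h4 : cn (fun w => (P w ∧ R w) ∧ ¬ Q w) ≤ cn (fun w => P w ∧ ¬ Q w) :=
    cn_mono fun w hw => ⟨hw.1.1, hw.2⟩
  omega

lemma ar {n D h : ℕ} (h3 : n * (D - 2 * h) ≤ D * D) (hD : 6 * h + 1 ≤ D) : n ≤ D + 4 * h := by
  by_contra hcon
  have hcon' : D + 4 * h + 1 ≤ n := by omega
  obtain ⟨E, hE⟩ : ∃ E, D = E + 2 * h := ⟨D - 2 * h, by omega⟩
  have h4 : D - 2 * h = E := by omega
  rw [h4] at h3
  subst hE
  have h5 : (E + 2 * h + 4 * h + 1) * E ≤ n * E := Nat.mul_le_mul_right _ hcon'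
  have h6 : 4 * h + 1 ≤ E := by omega
  nlinarith

lemma ar2 {c D h : ℕ} (h1 : D ≤ c + h) (h2 : 6 * h + 1 ≤ D) : 2 * h + 1 ≤ c := by omega

lemma ar3 {a b c d : ℕ} (h1 : a = b + c) (h2 : 1 ≤ b) (h3 : d ≤ c) : d + 1 ≤ a := by omega

lemma ar4 {a b c D n h : ℕ} (h1 : a = D) (h2 : a = b + c) (h3 : c ≤ h) (h4 : b + 1 ≤ n) :
    D + 1 ≤ n + h := by omega

end basic

/-- Piece E -/
theorem struct : SStruct := by
  intro V _ _ G D h htr hdeg hD hpair
  -- weak neighbours
  have hweak : ∀ v, cn (fun a => G.Adj v a ∧ ¬ (D ≤ co G a v + h)) ≤ h := by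
    intro v
    have h1 : ((univ : Finset (V × V)).filter
        (fun a => G.Adj v a.1 ∧ G.Adj v a.2 ∧ ¬ G.Adj a.1 a.2)).card =
        ∑ a : V, cn (fun b => G.Adj v a ∧ G.Adj v b ∧ ¬ G.Adj a b) := by
      rw [card_filter, Fintype.sum_prod_type]
      refine sum_congr rfl fun a _ => ?_
      unfold cn
      rw [card_filter]
      refine sum_congr rfl fun b _ => ?_
      by_cases hc : G.Adj v a ∧ G.Adj v b ∧ ¬ G.Adj a b
      · rw [if_pos hc, if_pos hc]
      · rw [if_neg hc, if_neg hc]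
    have h2 : ∑ a ∈ univ.filter (fun a => G.Adj v a ∧ ¬ (D ≤ co G a v + h)), (h + 1) ≤
        ∑ a : V, cn (fun b => G.Adj v a ∧ G.Adj v b ∧ ¬ G.Adj a b) := by
      refine le_trans (sum_le_sum ?_) (sum_le_sum_of_subset (filter_subset _ _))
      intro a ha
      rw [mem_filter] at ha
      obtain ⟨-, hva, hco⟩ := ha
      have h3 := cn_split (fun b => G.Adj v b) (fun b => G.Adj a b)
      rw [hdeg v] at h3
      have h4 : cn (fun b => G.Adj v b ∧ G.Adj a b) = co G a v := by
        rw [co_comm]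
        rfl
      have h5 : cn (fun b => G.Adj v b ∧ ¬ G.Adj a b) ≤
          cn (fun b => G.Adj v a ∧ G.Adj v b ∧ ¬ G.Adj a b) :=
        cn_mono fun b hb => ⟨hva, hb⟩
      omega
    have h3 := hpair v
    rw [h1] at h3
    rw [sum_const, smul_eq_mul] at h2
    have h6 : cn (fun a => G.Adj v a ∧ ¬ (D ≤ co G a v + h)) * (h + 1) ≤ h ^ 2 := by
      refine le_trans (le_of_eq ?_) (le_trans h2 h3)
      congr 1
      unfold cn
      congr 1
      ext w
      simp only [mem_filter, mem_univ, true_and]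
    by_contra hcon
    have hcon' : h + 1 ≤ cn (fun a => G.Adj v a ∧ ¬ (D ≤ co G a v + h)) := by omega
    have h7 := Nat.mul_le_mul_right (h + 1) hcon'
    nlinarith
  -- the relation
  have hbig : ∀ u v, 2 * h + 1 ≤ co G u v → D ≤ co G u v + 2 * h := by
    intro u v huv
    have h1 : ∃ w, G.Adj u w ∧ G.Adj v w ∧ D ≤ co G w u + h ∧ D ≤ co G w v + h := by
      have h2 := cn_split (fun w => G.Adj u w ∧ G.Adj v w) (fun w => D ≤ co G w u + h)
      have h3 := cn_split (fun w => (G.Adj u w ∧ G.Adj v w) ∧ D ≤ co G w u + h)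
        (fun w => D ≤ co G w v + h)
      have h4 : cn (fun w => (G.Adj u w ∧ G.Adj v w) ∧ ¬ (D ≤ co G w u + h)) ≤ h :=
        le_trans (cn_mono fun w hw => ⟨hw.1.1, hw.2⟩) (hweak u)
      have h5 : cn (fun w => ((G.Adj u w ∧ G.Adj v w) ∧ D ≤ co G w u + h) ∧
          ¬ (D ≤ co G w v + h)) ≤ h :=
        le_trans (cn_mono fun w hw => ⟨hw.1.1.2, hw.2⟩) (hweak v)
      have h6 : cn (fun w => G.Adj u w ∧ G.Adj v w) = co G u v := rfl
      obtain ⟨w, hw⟩ := cn_pos_of_exists (P := fun w => ((G.Adj u w ∧ G.Adj v w) ∧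
        D ≤ co G w u + h) ∧ D ≤ co G w v + h) (by omega)
      exact ⟨w, hw.1.1.1, hw.1.1.2, hw.1.2, hw.2⟩
    obtain ⟨w, -, -, hwu, hwv⟩ := h1
    have h2 := inter_large (fun x => G.Adj w x) (fun x => G.Adj u x) (fun x => G.Adj v x)
    rw [hdeg w] at h2
    have h3 : cn (fun x => G.Adj w x ∧ G.Adj u x) = co G w u := rfl
    have h4 : cn (fun x => G.Adj w x ∧ G.Adj v x) = co G w v := rfl
    have h5 : cn (fun x => G.Adj u x ∧ G.Adj v x) = co G u v := rfl
    omega
  have hself : ∀ v, co G v v = D := by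
    intro v
    rw [← hdeg v]
    exact cn_congr fun w => ⟨fun hw => hw.1, fun hw => ⟨hw, hw⟩⟩
  let r : Setoid V :=
    { r := fun u v => 2 * h + 1 ≤ co G u v
      iseqv :=
        { refl := fun v => by rw [hself]; omega
          symm := fun {u v} huv => by rw [co_comm]; exact huv
          trans := fun {u v w} huv hvw => by
            have h1 := hbig u v huv
            have h2 := hbig v w hvw
            have h3 := inter_large (fun x => G.Adj v x) (fun x => G.Adj u x) (fun x => G.Adj w x)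
            rw [hdeg v] at h3
            have h4 : cn (fun x => G.Adj v x ∧ G.Adj u x) = co G u v := by
              rw [co_comm]
              rfl
            have h5 : cn (fun x => G.Adj v x ∧ G.Adj w x) = co G v w := rfl
            have h6 : cn (fun x => G.Adj u x ∧ G.Adj w x) = co G u w := rfl
            omega } }
  let cl : V → V := fun v => (Quotient.mk r v).out
  have hcl : ∀ u v, cl u = cl v ↔ 2 * h + 1 ≤ co G u v := by
    intro u v
    constructor
    · intro huv
      have h1 : Quotient.mk r u = Quotient.mk r v := by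
        have h2 := congrArg (Quotient.mk r) huv
        simpa only [cl, Quotient.out_eq] using h2
      exact Quotient.exact h1
    · intro huv
      have h1 : Quotient.mk r u = Quotient.mk r v := Quotient.sound huv
      show (Quotient.mk r u).out = (Quotient.mk r v).out
      rw [h1]
  have hinv : ∀ (φ : G ≃g G) (u v : V), co G (φ u) (φ v) = co G u v := by
    intro φ u v
    unfold co
    rw [← cn_equiv φ.toEquiv (fun w => G.Adj (φ u) w ∧ G.Adj (φ v) w)]
    apply cn_congr
    intro w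
    show G.Adj (φ u) (φ w) ∧ G.Adj (φ v) (φ w) ↔ _
    rw [φ.map_adj_iff, φ.map_adj_iff]
  have hclφ : ∀ (φ : G ≃g G) (u v : V), cl (φ u) = cl (φ v) ↔ cl u = cl v := by
    intro φ u v
    rw [hcl, hcl, hinv]
  obtain ⟨v0⟩ := (inferInstance : Nonempty V)
  have hn : ∀ v, cn (fun w => cl w = cl v) = cn (fun w => cl w = cl v0) := by
    intro v
    obtain ⟨φ, hφ⟩ := htr v0 v
    rw [← cn_equiv φ.toEquiv (fun w => cl w = cl v)]
    apply cn_congr
    intro w
    show cl (φ w) = cl v ↔ _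
    rw [← hφ, hclφ]
  have he : ∀ v, cE G cl v = cE G cl v0 := by
    intro v
    obtain ⟨φ, hφ⟩ := htr v0 v
    unfold cE
    rw [← cn_equiv φ.toEquiv (fun w => G.Adj v w ∧ cl w ≠ cl v)]
    apply cn_congr
    intro w
    show G.Adj v (φ w) ∧ cl (φ w) ≠ cl v ↔ _
    rw [← hφ, Ne, hclφ, φ.map_adj_iff]
  have hν : ∀ v, cn (fun w => cl w = cl v ∧ w ≠ v ∧ ¬ G.Adj v w) =
      cn (fun w => cl w = cl v0 ∧ w ≠ v0 ∧ ¬ G.Adj v0 w) := by
    intro v
    obtain ⟨φ, hφ⟩ := htr v0 v
    rw [← cn_equiv φ.toEquiv (fun w => cl w = cl v ∧ w ≠ v ∧ ¬ G.Adj v w)]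
    apply cn_congr
    intro w
    show cl (φ w) = cl v ∧ φ w ≠ v ∧ ¬ G.Adj v (φ w) ↔ _
    rw [← hφ, hclφ, φ.map_adj_iff, Ne, φ.injective.eq_iff]
  refine ⟨cl, cn (fun w => cl w = cl v0), cE G cl v0,
    cn (fun w => cl w = cl v0 ∧ w ≠ v0 ∧ ¬ G.Adj v0 w), hn, he, hν, ?_, ?_, ?_⟩
  · refine le_trans (cn_mono ?_) (hweak v0)
    intro w hw
    refine ⟨hw.1, fun hco => hw.2 ?_⟩
    rw [hcl]
    omega
  · -- double counting
    have h1 : cn (fun w => cl w = cl v0) * (D - 2 * h) ≤
        ∑ u ∈ univ.filter (fun w => cl w = cl v0), co G u v0 := by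
      unfold cn
      rw [← smul_eq_mul, ← sum_const]
      apply sum_le_sum
      intro u hu
      rw [mem_filter, hcl] at hu
      have := hbig u v0 hu.2
      omega
    have h2 : ∑ u ∈ univ.filter (fun w => cl w = cl v0), co G u v0 ≤ D * D := by
      have h3 : ∀ u : V, co G u v0 = ∑ w ∈ univ.filter (fun w => G.Adj v0 w),
          if G.Adj u w then 1 else 0 := by
        intro u
        unfold co cn
        rw [card_filter, sum_filter]
        refine sum_congr rfl fun w _ => ?_
        by_cases ha : G.Adj u w <;> by_cases hb : G.Adj v0 w <;> simp [ha, hb]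
      rw [sum_congr rfl fun u _ => h3 u, sum_comm]
      have h4 : ∀ w ∈ univ.filter (fun w => G.Adj v0 w),
          (∑ u ∈ univ.filter (fun w => cl w = cl v0), if G.Adj u w then 1 else 0) ≤ D := by
        intro w _
        rw [← hdeg w]
        unfold cn
        rw [card_filter]
        refine le_trans (sum_le_sum_of_subset (filter_subset _ _)) (sum_le_sum ?_)
        intro u _
        by_cases ha : G.Adj u w
        · simp [ha, ha.symm]
        · simp [ha]
      refine le_trans (sum_le_sum h4) ?_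
      rw [sum_const, smul_eq_mul]
      have h5 : (univ.filter (fun w => G.Adj v0 w)).card = D := hdeg v0
      rw [h5]
    exact ar (le_trans h1 h2) hD
  · have h1 : cn (fun w => G.Adj v0 w) = D := hdeg v0
    have h2 := cn_split (fun w => G.Adj v0 w) (fun w => D ≤ co G w v0 + h)
    have h3 := hweak v0
    have h4 : cn (fun w => G.Adj v0 w ∧ D ≤ co G w v0 + h) + 1 ≤ cn (fun w => cl w = cl v0) := by
      have h5 := cn_split (fun w => cl w = cl v0) (fun w => w = v0)
      have h6 : 1 ≤ cn (fun w => cl w = cl v0 ∧ w = v0) :=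
        one_le_cn (P := fun w => cl w = cl v0 ∧ w = v0) v0 ⟨rfl, rfl⟩
      have h7 : cn (fun w => G.Adj v0 w ∧ D ≤ co G w v0 + h) ≤
          cn (fun w => cl w = cl v0 ∧ ¬ w = v0) := by
        apply cn_mono
        intro w hw
        constructor
        · have h8 : D ≤ co G w v0 + h := hw.2
          exact (hcl w v0).2 (ar2 h8 hD)
        · intro hwv
          exact G.ne_of_adj hw.1 hwv.symm
      exact ar3 h5 h6 h7
    exact ar4 h1 h2 h3 h4

end Pool.Agent.T9h56.CP
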