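import Pool.Agent.T9h56.CP.Struct
import Pool.Agent.H931R2.Haxell

set_option autoImplicit false

namespace Pool.Agent.T9h56.CP

open Finset Classical Pool.T9h45.CP

variable {V : Type} [Fintype V]

/-- partial colouring -/
structure Ok (G : SimpleGraph V) (cl : V → V) (S : V → Prop) (c : V → Option ℕ) : Prop where
  dom : ∀ v k, c v = some k → S v
  lt : ∀ v k, c v = some k → k < cn (fun w => S w ∧ cl w = cl v)
  ne : ∀ u v k, c u = some k → c v = some k → u ≠ v → cl u ≠ cl v ∧ ¬ G.Adj u v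

/-- independent transversals -/
lemma transversal (G : SimpleGraph V) (cl : V → V) (S : V → Prop) (d : ℕ) (J : Finset V)
    (W : V → V → Prop) (hW : ∀ i ∈ J, ∀ w, W i w → S w ∧ cl w = i)
    (hsize : ∀ i ∈ J, 2 * d ≤ cn (W i)) (hne : ∀ i ∈ J, ∃ w, W i w)
    (hdeg : ∀ v, S v → cn (fun w => S w ∧ G.Adj v w ∧ cl w ≠ cl v) ≤ d) :
    ∃ t : V → V, (∀ i ∈ J, W i (t i)) ∧ ∀ i ∈ J, ∀ j ∈ J, i ≠ j → ¬ G.Adj (t i) (t j) := by
  rcases Nat.eq_zero_or_pos d with hd | hd
  · refine ⟨fun i => if h : i ∈ J then (hne i h).choose else i, ?_, ?_⟩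
    · intro i hi
      simp only [dif_pos hi]
      exact (hne i hi).choose_spec
    · intro i hi j hj hij hadj
      simp only [dif_pos hi, dif_pos hj] at hadj
      have h1 := hW i hi _ (hne i hi).choose_spec
      have h2 := hW j hj _ (hne j hj).choose_spec
      have h3 := hdeg _ h1.1
      have h4 : 1 ≤ cn (fun w => S w ∧ G.Adj (hne i hi).choose w ∧
          cl w ≠ cl (hne i hi).choose) :=
        one_le_cn (P := fun w => S w ∧ G.Adj (hne i hi).choose w ∧
          cl w ≠ cl (hne i hi).choose) (hne j hj).choose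
          ⟨h2.1, hadj, by rw [h1.2, h2.2]; exact hij.symm⟩
      omega
  · have hemb : ∀ i : {i // i ∈ J}, ∃ e : Fin (2 * d) ↪ V, ∀ s, W i.1 (e s) := by
      intro i
      have h1 : Fintype.card (Fin (2 * d)) ≤ Fintype.card {w // W i.1 w} := by
        rw [Fintype.card_fin, Fintype.card_subtype, ← cn_eq]
        exact hsize i.1 i.2
      obtain ⟨e⟩ := Function.Embedding.nonempty_of_card_le h1
      exact ⟨e.trans (Function.Embedding.subtype _), fun s => (e s).2⟩
    choose e he using hemb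
    let adj' : {i // i ∈ J} × Fin (2 * d) → {i // i ∈ J} × Fin (2 * d) → Prop :=
      fun a b => a.1 ≠ b.1 ∧ G.Adj (e a.1 a.2) (e b.1 b.2)
    have hcle : ∀ i s, cl (e i s) = i.1 := fun i s => (hW i.1 i.2 _ (he i s)).2
    have hSe : ∀ i s, S (e i s) := fun i s => (hW i.1 i.2 _ (he i s)).1
    haveI : Nonempty (Fin (2 * d)) := ⟨⟨0, by omega⟩⟩
    have hdom : ∀ z : {i // i ∈ J} × Fin (2 * d),
        (univ.filter (fun a => adj' a z)).card ≤ d := by
      intro z
      refine le_trans ?_ (hdeg (e z.1 z.2) (hSe z.1 z.2))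
      rw [cn_eq]
      apply card_le_card_of_injOn (fun a => e a.1 a.2)
      · intro a ha
        rw [mem_coe, mem_filter] at ha
        rw [mem_coe, mem_filter]
        refine ⟨mem_univ _, hSe _ _, ha.2.2.symm, ?_⟩
        rw [hcle, hcle]
        intro h
        exact ha.2.1 (Subtype.ext h)
      · intro a _ b _ hab
        have h1 : e a.1 a.2 = e b.1 b.2 := hab
        have h2 : a.1 = b.1 := by
          apply Subtype.ext
          rw [← hcle a.1 a.2, ← hcle b.1 b.2, h1]
        obtain ⟨a1, a2⟩ := a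
        obtain ⟨b1, b2⟩ := b
        simp only at h1 h2
        subst h2
        rw [(e a1).injective h1]
    obtain ⟨f, hf⟩ := Pool.Agent.H931R2.Haxell.finite (adj := adj')
      (fun a b hab => ⟨hab.1.symm, hab.2.symm⟩) (by
        intro K hK Z hZ
        by_contra hcon
        push Not at hcon
        have h1 : K ×ˢ (univ : Finset (Fin (2 * d))) ⊆
            Z.biUnion (fun z => univ.filter (fun a => adj' a z)) := by
          intro a ha
          rw [mem_product] at ha
          obtain ⟨z, hz, hz'⟩ := hcon a.1 ha.1 a.2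
          rw [mem_biUnion]
          exact ⟨z, hz, mem_filter.2 ⟨mem_univ _, hz'⟩⟩
        have h2 := card_le_card h1
        have h3 := le_trans h2 card_biUnion_le
        have h4 := le_trans h3 (sum_le_sum fun z _ => hdom z)
        rw [card_product, card_univ, Fintype.card_fin, sum_const, smul_eq_mul] at h4
        have h5 := le_trans h4 (Nat.mul_le_mul_right d hZ)
        have h6 := card_pos.2 hK
        have h7 : K.card * 2 ≤ 2 * (K.card - 1) := by
          apply Nat.le_of_mul_le_mul_right _ hd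
          calc K.card * 2 * d = K.card * (2 * d) := by ring
            _ ≤ _ := h5
        omega) univ
    refine ⟨fun i => if h : i ∈ J then e ⟨i, h⟩ (f ⟨i, h⟩) else i, ?_, ?_⟩
    · intro i hi
      simp only [dif_pos hi]
      exact he ⟨i, hi⟩ _
    · intro i hi j hj hij hadj
      simp only [dif_pos hi, dif_pos hj] at hadj
      have hne' : (⟨i, hi⟩ : {i // i ∈ J}) ≠ ⟨j, hj⟩ := fun h => hij (congrArg Subtype.val h)
      exact hf ⟨i, hi⟩ (mem_univ _) ⟨j, hj⟩ (mem_univ _) hne' ⟨hne', hadj⟩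

/-- one more coloured vertex -/
lemma step (G : SimpleGraph V) (cl : V → V) (S : V → Prop) (d : ℕ)
    (hdeg : ∀ v, S v → cn (fun w => S w ∧ G.Adj v w ∧ cl w ≠ cl v) ≤ d)
    (hsize : ∀ v, S v → 4 * d ≤ cn (fun w => S w ∧ cl w = cl v)) (c : V → Option ℕ)
    (hc : Ok G cl S c) (v0 : V) (hv0 : S v0) (hc0 : c v0 = none) :
    ∃ c' : V → Option ℕ, Ok G cl S c' ∧ cn (fun v => c v ≠ none) + 1 ≤
      cn (fun v => c' v ≠ none) := by
  -- the missing colour
  obtain ⟨α, hα, hmiss⟩ : ∃ α, α < cn (fun w => S w ∧ cl w = cl v0) ∧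
      ∀ w, cl w = cl v0 → c w ≠ some α := by
    let T : Finset V := univ.filter (fun w => cl w = cl v0 ∧ c w ≠ none)
    have h1 : T.card + 1 ≤ cn (fun w => S w ∧ cl w = cl v0) := by
      have h2 := cn_split (fun w => S w ∧ cl w = cl v0) (fun w => w = v0)
      have h3 : 1 ≤ cn (fun w => (S w ∧ cl w = cl v0) ∧ w = v0) :=
        one_le_cn (P := fun w => (S w ∧ cl w = cl v0) ∧ w = v0) v0 ⟨⟨hv0, rfl⟩, rfl⟩
      have h4 : T.card ≤ cn (fun w => (S w ∧ cl w = cl v0) ∧ ¬ w = v0) := by
        rw [cn_eq]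
        apply card_le_card
        intro w hw
        have hw' := (mem_filter.1 hw).2
        refine mem_filter.2 ⟨mem_univ _, ?_⟩
        obtain ⟨k, hk⟩ := Option.ne_none_iff_exists'.1 hw'.2
        refine ⟨⟨hc.dom w k hk, hw'.1⟩, ?_⟩
        rintro rfl
        exact hw'.2 hc0
      omega
    have h5 : (T.image (fun w => (c w).getD 0)).card <
        (range (cn (fun w => S w ∧ cl w = cl v0))).card := by
      rw [card_range]
      have := card_image_le (s := T) (f := fun w => (c w).getD 0)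
      omega
    obtain ⟨α, hα, hα'⟩ := exists_mem_notMem_of_card_lt_card h5
    refine ⟨α, mem_range.1 hα, fun w hw hcw => hα' ?_⟩
    rw [mem_image]
    refine ⟨w, mem_filter.2 ⟨mem_univ _, hw, by rw [hcw]; exact Option.some_ne_none _⟩, ?_⟩
    rw [hcw]
    rfl
  let J : Finset V := univ.filter (fun i => ∃ x, c x = some α ∧ cl x = i)
  have hJ : ∀ i, i ∈ J ↔ ∃ x, c x = some α ∧ cl x = i := fun i => by simp [J]
  obtain ⟨u, hu⟩ : ∃ u : V → V, ∀ i ∈ J, c (u i) = some α ∧ cl (u i) = i := by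
    refine ⟨fun i => if h : ∃ x, c x = some α ∧ cl x = i then h.choose else v0, ?_⟩
    intro i hi
    have h := (hJ i).1 hi
    simp only [dif_pos h]
    exact h.choose_spec
  have hJ0 : cl v0 ∉ J := by
    intro h
    obtain ⟨x, hx, hx'⟩ := (hJ _).1 h
    exact hmiss x hx' hx
  have hJne : ∀ i ∈ J, i ≠ cl v0 := by
    intro i hi h
    rw [h] at hi
    exact hJ0 hi
  let W : V → V → Prop := fun i w => (S w ∧ cl w = i) ∧ ¬ G.Adj v0 w ∧
    ∀ x, G.Adj (u i) x → cl x ≠ i → ∀ k, c w = some k → c x ≠ some k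
  have hWu : ∀ i ∈ J, ¬ G.Adj v0 (u i) → W i (u i) := by
    intro i hi hadj
    obtain ⟨h1, h2⟩ := hu i hi
    refine ⟨⟨hc.dom _ _ h1, h2⟩, hadj, ?_⟩
    intro x hx hxi k hk hk'
    exact (hc.ne (u i) x k hk hk' (G.ne_of_adj hx)).2 hx
  have hWsize : ∀ i ∈ J, 2 * d ≤ cn (W i) := by
    intro i hi
    obtain ⟨h1, h2⟩ := hu i hi
    have h3 := hsize (u i) (hc.dom _ _ h1)
    rw [h2] at h3
    have h4 := cn_split (fun w => S w ∧ cl w = i) (fun w => G.Adj v0 w)
    have h5 := cn_split (fun w => (S w ∧ cl w = i) ∧ ¬ G.Adj v0 w)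
      (fun w => ∀ x, G.Adj (u i) x → cl x ≠ i → ∀ k, c w = some k → c x ≠ some k)
    have h6 : cn (fun w => (S w ∧ cl w = i) ∧ G.Adj v0 w) ≤ d := by
      refine le_trans (cn_mono ?_) (hdeg v0 hv0)
      intro w hw
      refine ⟨hw.1.1, hw.2, ?_⟩
      rw [hw.1.2]
      exact hJne i hi
    have h7 : cn (fun w => ((S w ∧ cl w = i) ∧ ¬ G.Adj v0 w) ∧
        ¬ (∀ x, G.Adj (u i) x → cl x ≠ i → ∀ k, c w = some k → c x ≠ some k)) ≤ d := by
      refine le_trans ?_ (hdeg (u i) (hc.dom _ _ h1))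
      have hx : ∀ w, (((S w ∧ cl w = i) ∧ ¬ G.Adj v0 w) ∧
          ¬ (∀ x, G.Adj (u i) x → cl x ≠ i → ∀ k, c w = some k → c x ≠ some k)) →
          ∃ x, G.Adj (u i) x ∧ cl x ≠ i ∧ ∃ k, c w = some k ∧ c x = some k := by
        intro w hw
        by_contra hcon
        apply hw.2
        intro x hx1 hx2 k hk hk'
        exact hcon ⟨x, hx1, hx2, k, hk, hk'⟩
      rw [cn_eq, cn_eq]
      apply card_le_card_of_injOn (fun w => if h : ∃ x, G.Adj (u i) x ∧ cl x ≠ i ∧
        ∃ k, c w = some k ∧ c x = some k then h.choose else w)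
      · intro w hw
        have hw' := hx w (mem_filter.1 (mem_coe.1 hw)).2
        rw [mem_coe, mem_filter]
        refine ⟨mem_univ _, ?_⟩
        simp only [dif_pos hw']
        obtain ⟨hs1, hs2, k, hk, hk'⟩ := hw'.choose_spec
        refine ⟨hc.dom _ _ hk', hs1, ?_⟩
        rw [h2]
        exact hs2
      · intro w hw w' hw' hww
        have hw1 := (mem_filter.1 (mem_coe.1 hw)).2
        have hw1' := (mem_filter.1 (mem_coe.1 hw')).2
        have hw2 := hx w hw1
        have hw2' := hx w' hw1'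
        simp only [dif_pos hw2, dif_pos hw2'] at hww
        obtain ⟨-, -, k, hk, hk'⟩ := hw2.choose_spec
        obtain ⟨-, -, l, hl, hl'⟩ := hw2'.choose_spec
        rw [hww, hl'] at hk'
        have hkl : l = k := Option.some.inj hk'
        subst hkl
        by_contra hne
        exact (hc.ne w w' l hk hl hne).1 (by rw [hw1.1.1.2, hw1'.1.1.2])
    have h8 : cn (fun w => ((S w ∧ cl w = i) ∧ ¬ G.Adj v0 w) ∧
        (∀ x, G.Adj (u i) x → cl x ≠ i → ∀ k, c w = some k → c x ≠ some k)) ≤ cn (W i) :=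
      cn_mono fun w hw => ⟨hw.1.1, hw.1.2, hw.2⟩
    omega
  have hWne : ∀ i ∈ J, ∃ w, W i w := by
    intro i hi
    rcases Nat.eq_zero_or_pos d with hd | hd
    · refine ⟨u i, hWu i hi fun hadj => ?_⟩
      obtain ⟨h1, h2⟩ := hu i hi
      have h3 := hdeg v0 hv0
      have h4 : 1 ≤ cn (fun w => S w ∧ G.Adj v0 w ∧ cl w ≠ cl v0) :=
        one_le_cn (P := fun w => S w ∧ G.Adj v0 w ∧ cl w ≠ cl v0) (u i)
          ⟨hc.dom _ _ h1, hadj, by rw [h2]; exact hJne i hi⟩
      omega
    · apply cn_pos_of_exists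
      have := hWsize i hi
      omega
  obtain ⟨t, htW, htadj⟩ := transversal G cl S d J W (fun i _ w hw => hw.1) hWsize hWne hdeg
  have hclt : ∀ i ∈ J, cl (t i) = i := fun i hi => (htW i hi).1.2
  have hclu : ∀ i ∈ J, cl (u i) = i := fun i hi => (hu i hi).2
  -- the exchange
  let σ : V → V := fun v => if cl v ∈ J then Equiv.swap (u (cl v)) (t (cl v)) v else v
  have hσn : ∀ v, cl v ∉ J → σ v = v := fun v hv => if_neg hv
  have hσJ : ∀ v, cl v ∈ J → σ v = Equiv.swap (u (cl v)) (t (cl v)) v := fun v hv => if_pos hv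
  have hcases : ∀ v, σ v = v ∨ (cl v ∈ J ∧ v = u (cl v) ∧ σ v = t (cl v)) ∨
      (cl v ∈ J ∧ v = t (cl v) ∧ σ v = u (cl v)) := by
    intro v
    by_cases hv : cl v ∈ J
    · rw [hσJ v hv]
      by_cases h1 : v = u (cl v)
      · right; left
        refine ⟨hv, h1, ?_⟩
        conv_lhs => rw [h1]
        rw [hclu _ hv, Equiv.swap_apply_left]
      · by_cases h2 : v = t (cl v)
        · right; right
          refine ⟨hv, h2, ?_⟩
          conv_lhs => rw [h2]
          rw [hclt _ hv, Equiv.swap_apply_right]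
        · left
          exact Equiv.swap_apply_of_ne_of_ne h1 h2
    · left
      exact hσn v hv
  have hclσ : ∀ v, cl (σ v) = cl v := by
    intro v
    rcases hcases v with h | ⟨h1, h2, h3⟩ | ⟨h1, h2, h3⟩
    · rw [h]
    · rw [h3, hclt _ h1]
    · rw [h3, hclu _ h1]
  have hσσ : ∀ v, σ (σ v) = v := by
    intro v
    by_cases hv : cl v ∈ J
    · rw [hσJ (σ v) (by rw [hclσ]; exact hv), hclσ, hσJ v hv, Equiv.swap_apply_self]
    · rw [hσn v hv, hσn v hv]
  have hσS : ∀ v, S (σ v) → S v := by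
    intro v hS
    rcases hcases v with h | ⟨h1, h2, h3⟩ | ⟨h1, h2, h3⟩
    · rwa [h] at hS
    · rw [h2]
      exact hc.dom _ _ (hu _ h1).1
    · rw [h2]
      exact (htW _ h1).1.1
  have hσ0 : σ v0 = v0 := hσn v0 hJ0
  have hA : ∀ v, c (σ v) = some α → cl v ∈ J ∧ v = t (cl v) := by
    intro v hv
    have h1 : cl v ∈ J := (hJ _).2 ⟨σ v, hv, hclσ v⟩
    refine ⟨h1, ?_⟩
    have h2 : σ v = u (cl v) := by
      by_contra hne
      refine (hc.ne (σ v) (u (cl v)) α hv (hu _ h1).1 hne).1 ?_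
      rw [hclσ, hclu _ h1]
    have h3 : σ (σ v) = t (cl v) := by
      rw [hσJ (σ v) (by rw [hclσ]; exact h1), hclσ, h2, Equiv.swap_apply_left]
    rw [← h3, hσσ]
  have hB : ∀ v k, c (σ v) = some k → k ≠ α → σ v ≠ v →
      cl v ∈ J ∧ v = u (cl v) ∧ σ v = t (cl v) := by
    intro v k hk hkα hne
    rcases hcases v with h | h | ⟨h1, h2, h3⟩
    · exact absurd h hne
    · exact h
    · rw [h3, (hu _ h1).1] at hk
      exact absurd (Option.some.inj hk).symm hkα
  -- the new colouring
  let c' : V → Option ℕ := fun v => if v = v0 then some α else c (σ v)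
  have hc'0 : c' v0 = some α := if_pos rfl
  have hc'n : ∀ v, v ≠ v0 → c' v = c (σ v) := fun v hv => if_neg hv
  have hadj0 : ∀ v, v ≠ v0 → c' v = some α → cl v0 ≠ cl v ∧ ¬ G.Adj v0 v := by
    intro v hv hv'
    rw [hc'n v hv] at hv'
    obtain ⟨h1, h2⟩ := hA v hv'
    refine ⟨(hJne _ h1).symm, ?_⟩
    rw [h2]
    exact (htW _ h1).2.1
  -- the crucial case
  have hcr : ∀ x y k, c (σ x) = some k → c (σ y) = some k → x ≠ y → k ≠ α → G.Adj x y →
      σ x ≠ x → False := by
    intro x y k hx hy hxy hkα hadj hne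
    obtain ⟨h1, h2, h3⟩ := hB x k hx hkα hne
    have hclxy : cl x ≠ cl y := by
      have h4 := (hc.ne (σ x) (σ y) k hx hy (fun h => hxy (by rw [← hσσ x, ← hσσ y, h]))).1
      rwa [hclσ, hclσ] at h4
    have hadj' : G.Adj (u (cl x)) y := by rw [← h2]; exact hadj
    have h5 := (htW _ h1).2.2 y hadj' hclxy.symm k (by rw [← h3]; exact hx)
    have h6 : σ y ≠ y := by
      intro h
      rw [h] at hy
      exact h5 hy
    obtain ⟨g1, g2, g3⟩ := hB y k hy hkα h6
    have h7 := (hc.ne (u (cl x)) (u (cl y)) α (hu _ h1).1 (hu _ g1).1 (by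
      rw [← h2, ← g2]; exact hxy)).2
    rw [← h2, ← g2] at h7
    exact h7 hadj
  refine ⟨c', ⟨?_, ?_, ?_⟩, ?_⟩
  · intro v k hk
    by_cases hv : v = v0
    · rw [hv]
      exact hv0
    · rw [hc'n v hv] at hk
      exact hσS v (hc.dom _ _ hk)
  · intro v k hk
    by_cases hv : v = v0
    · subst hv
      rw [hc'0] at hk
      rw [← Option.some.inj hk]
      exact hα
    · rw [hc'n v hv] at hk
      have := hc.lt _ _ hk
      rwa [hclσ] at this
  · intro x y k hx hy hxy
    by_cases hx0 : x = v0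
    · subst hx0
      rw [hc'0] at hx
      rw [← hx] at hy
      exact hadj0 y (Ne.symm hxy) hy
    · by_cases hy0 : y = v0
      · subst hy0
        rw [hc'0] at hy
        rw [← hy] at hx
        obtain ⟨h1, h2⟩ := hadj0 x hxy hx
        exact ⟨h1.symm, fun h => h2 h.symm⟩
      · rw [hc'n x hx0] at hx
        rw [hc'n y hy0] at hy
        have hσne : σ x ≠ σ y := fun h => hxy (by rw [← hσσ x, ← hσσ y, h])
        have h1 := hc.ne _ _ k hx hy hσne
        have hcl : cl x ≠ cl y := by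
          have := h1.1
          rwa [hclσ, hclσ] at this
        refine ⟨hcl, fun hadj => ?_⟩
        by_cases hkα : k = α
        · subst hkα
          obtain ⟨g1, g2⟩ := hA x hx
          obtain ⟨g3, g4⟩ := hA y hy
          apply htadj _ g1 _ g3 hcl
          rw [← g2, ← g4]
          exact hadj
        · by_cases h2 : σ x = x
          · by_cases h3 : σ y = y
            · rw [h2, h3] at h1
              exact h1.2 hadj
            · exact hcr y x k hy hx hxy.symm hkα hadj.symm h3
          · exact hcr x y k hx hy hxy hkα hadj h2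
  · have h1 := cn_split (fun v => c' v ≠ none) (fun v => v = v0)
    have h2 : 1 ≤ cn (fun v => c' v ≠ none ∧ v = v0) :=
      one_le_cn (P := fun v => c' v ≠ none ∧ v = v0) v0
        ⟨by rw [hc'0]; exact Option.some_ne_none _, rfl⟩
    have h3 : cn (fun v => c v ≠ none) ≤ cn (fun v => c' v ≠ none ∧ ¬ v = v0) := by
      rw [← cn_equiv (Function.Involutive.toPerm σ hσσ) (fun v => c v ≠ none)]
      apply cn_mono
      intro v hv
      have hv' : c (σ v) ≠ none := hv
      have hne : v ≠ v0 := by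
        rintro rfl
        rw [hσ0] at hv'
        exact hv' hc0
      exact ⟨by rw [hc'n v hne]; exact hv', hne⟩
    omega

/-- Piece B -/
theorem strong : SStrong := by
  intro V _ G cl S d hdeg hsize
  have key : ∀ m : ℕ, (∃ c : V → Option ℕ, Ok G cl S c ∧ ∀ v, S v → c v ≠ none) ∨
      (∃ c : V → Option ℕ, Ok G cl S c ∧ m ≤ cn (fun v => c v ≠ none)) := by
    intro m
    induction m with
    | zero =>
      right
      refine ⟨fun _ => none, ⟨?_, ?_, ?_⟩, Nat.zero_le _⟩
      · intro v k hk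
        exact absurd hk (Option.some_ne_none k).symm
      · intro v k hk
        exact absurd hk (Option.some_ne_none k).symm
      · intro u v k hk
        exact absurd hk (Option.some_ne_none k).symm
    | succ m ih =>
      rcases ih with ih | ⟨c, hc, hm⟩
      · exact Or.inl ih
      · by_cases hall : ∀ v, S v → c v ≠ none
        · exact Or.inl ⟨c, hc, hall⟩
        · push Not at hall
          obtain ⟨v0, hv0, hc0⟩ := hall
          obtain ⟨c', hc', hm'⟩ := step G cl S d hdeg hsize c hc v0 hv0 hc0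
          exact Or.inr ⟨c', hc', by omega⟩
  obtain ⟨c, hc, hall⟩ : ∃ c : V → Option ℕ, Ok G cl S c ∧ ∀ v, S v → c v ≠ none := by
    rcases key (Fintype.card V + 1) with h | ⟨c, -, hm⟩
    · exact h
    · exfalso
      have h1 : cn (fun v => c v ≠ none) ≤ Fintype.card V := by
        unfold cn
        exact card_le_univ _
      omega
  have hsome : ∀ v, S v → c v = some ((c v).getD 0) := by
    intro v hv
    obtain ⟨k, hk⟩ := Option.ne_none_iff_exists'.1 (hall v hv)
    rw [hk]
    rfl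
  refine ⟨fun v => (c v).getD 0, fun v hv => hc.lt v _ (hsome v hv), ?_⟩
  intro u v hu hv huv hor heq
  have h1 := hsome u hu
  have h2 := hsome v hv
  have heq' : (c u).getD 0 = (c v).getD 0 := heq
  rw [← heq'] at h2
  have h3 := hc.ne u v _ h1 h2 huv
  rcases hor with h | h
  · exact h3.1 h
  · exact h3.2 h

end Pool.Agent.T9h56.CP
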